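import Pool.Agent.Helper65.RP.Defs
import Pool.Agent.Helper36.Growth

/-!
# Growth of a regular polynomial map at one absolute value (RP-B1)
-/

set_option autoImplicit false

namespace Pool.Agent.Helper61.RP

open MvPolynomial Pool.Agent.Helper65.RP

section size
variable {K : Type} [Field K] {N : ℕ}

/-- The size `max (1, |x_1|, ..., |x_N|)`. -/
noncomputable def sz (v : AbsoluteValue K ℝ) (x : Fin N → K) : ℝ := max 1 (⨆ i, v (x i))

lemma one_le_sz (v : AbsoluteValue K ℝ) (x : Fin N → K) : 1 ≤ sz v x := le_max_left _ _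

lemma le_sz (v : AbsoluteValue K ℝ) (x : Fin N → K) (i : Fin N) : v (x i) ≤ sz v x :=
  le_max_of_le_right (le_ciSup (f := fun i => v (x i)) (Set.finite_range _).bddAbove i)

lemma sz_le {v : AbsoluteValue K ℝ} {x : Fin N → K} {B : ℝ} (hB : 1 ≤ B)
    (h : ∀ i, v (x i) ≤ B) : sz v x ≤ B :=
  max_le hB (Real.iSup_le h (by linarith))

lemma sz_cases (v : AbsoluteValue K ℝ) (x : Fin N → K) : sz v x = 1 ∨ ∃ i, sz v x = v (x i) := by
  rcases le_total (⨆ i, v (x i)) 1 with h | h
  · exact Or.inl (max_eq_left h)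
  · right
    have hN : Nonempty (Fin N) := by
      by_contra hN
      rw [not_nonempty_iff] at hN
      rw [Real.iSup_of_isEmpty] at h
      linarith
    obtain ⟨i, hi⟩ := exists_eq_ciSup_of_finite (f := fun i => v (x i))
    exact ⟨i, by rw [sz, max_eq_right h, hi]⟩

lemma lh_eq (v : AbsoluteValue K ℝ) (x : Fin N → K) : lh v x = Real.log (sz v x) := rfl

/-- The sum of the absolute values of the coefficients. -/
noncomputable def cf (v : AbsoluteValue K ℝ) (p : MvPolynomial (Fin N) K) : ℝ :=
  ∑ s ∈ p.support, v (coeff s p)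

lemma cf_nonneg (v : AbsoluteValue K ℝ) (p : MvPolynomial (Fin N) K) : 0 ≤ cf v p :=
  Finset.sum_nonneg fun _ _ => v.nonneg _

lemma eval_le (v : AbsoluteValue K ℝ) (p : MvPolynomial (Fin N) K) {m : ℕ}
    (hp : ∀ s ∈ p.support, Finsupp.degree s ≤ m) (x : Fin N → K) :
    v (eval x p) ≤ cf v p * sz v x ^ m := by
  rw [eval_eq', cf, Finset.sum_mul]
  refine le_trans (v.sum_le _ _) (Finset.sum_le_sum fun s hs => ?_)
  rw [map_mul, map_prod]
  refine mul_le_mul_of_nonneg_left ?_ (v.nonneg _)
  have h1 : ∏ i, v (x i ^ s i) ≤ ∏ i, sz v x ^ s i := by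
    refine Finset.prod_le_prod (fun i _ => v.nonneg _) fun i _ => ?_
    rw [map_pow]
    exact pow_le_pow_left₀ (v.nonneg _) (le_sz v x i) _
  refine le_trans h1 ?_
  rw [Finset.prod_pow_eq_pow_sum]
  refine pow_le_pow_right₀ (one_le_sz v x) ?_
  have := hp s hs
  rwa [Finsupp.degree_eq_sum] at this

end size

section B
variable {K Kb : Type} [Field K] [Field Kb] [Algebra K Kb] [IsAlgClosed Kb] {N d : ℕ}
  {f : Fin N → MvPolynomial (Fin N) K}

lemma degree_le_of_totalDegree {p : MvPolynomial (Fin N) K} (hp : p.totalDegree ≤ d)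
    (s : Fin N →₀ ℕ) (hs : s ∈ p.support) : Finsupp.degree s ≤ d := by
  refine le_trans ?_ hp
  exact MvPolynomial.le_totalDegree hs

/-- B1, upper bound -/
theorem growth_upper (hf : ∀ i, (f i).totalDegree ≤ d) (v : AbsoluteValue K ℝ) :
    ∃ C : ℝ, 1 ≤ C ∧ ∀ x : Fin N → K, sz v (fun i => eval x (f i)) ≤ C * sz v x ^ d := by
  refine ⟨1 + ∑ i, cf v (f i), ?_, fun x => ?_⟩
  · have := Finset.sum_nonneg (s := Finset.univ) (f := fun i => cf v (f i))
      fun i _ => cf_nonneg v (f i)
    linarith
  · have h0 : 0 ≤ ∑ i, cf v (f i) := Finset.sum_nonneg fun i _ => cf_nonneg v (f i)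
    have h1 : 1 ≤ sz v x ^ d := one_le_pow₀ (one_le_sz v x)
    refine sz_le (by nlinarith) fun i => ?_
    have h2 := eval_le v (f i) (m := d) (degree_le_of_totalDegree (hf i)) x
    refine le_trans h2 (mul_le_mul_of_nonneg_right ?_ (by linarith))
    have := Finset.single_le_sum (f := fun i => cf v (f i)) (fun i _ => cf_nonneg v (f i))
      (Finset.mem_univ i)
    linarith

/-- B1, lower bound -/
theorem growth_lower (hd : 1 ≤ d) (hf : Regular Kb d f) (v : AbsoluteValue K ℝ) :
    ∃ C : ℝ, 1 ≤ C ∧ ∀ x : Fin N → K, sz v x ^ d ≤ C * sz v (fun i => eval x (f i)) := by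
  classical
  obtain ⟨M, q, hq, hqG⟩ := Pool.Agent.Helper36.exists_nullstellensatz (L := Kb)
    (fun i => homogeneousComponent d (f i)) (fun i => homogeneousComponent_isHomogeneous d (f i))
    hf.2
  -- the remainders
  set r : Fin N → MvPolynomial (Fin N) K := fun i => f i - homogeneousComponent d (f i) with hr
  have hrdeg : ∀ i, ∀ s ∈ (r i).support, Finsupp.degree s ≤ d - 1 := by
    intro i s hs
    rw [mem_support_iff, hr, coeff_sub, coeff_homogeneousComponent] at hs
    by_cases h : Finsupp.degree s = d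
    · rw [if_pos h, sub_self] at hs
      exact absurd rfl hs
    · rw [if_neg h, sub_zero] at hs
      have := degree_le_of_totalDegree (hf.1 i) s (mem_support_iff.2 hs)
      omega
  have hqdeg : ∀ a, ∀ s ∈ (q a).support, Finsupp.degree s ≤ M := by
    intro a s hs
    have h1 := (hq a) (mem_support_iff.1 hs)
    have h2 := DFunLike.congr_fun (Finsupp.degree_eq_weight_one (R := ℕ) (σ := Fin N)) s
    have h3 : Finsupp.degree s = M := h2.trans h1
    exact h3.le
  set R : ℝ := ∑ i, cf v (r i) with hR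
  set A : ℝ := 1 + ∑ a, cf v (q a) with hA
  have hR0 : 0 ≤ R := Finset.sum_nonneg fun i _ => cf_nonneg v (r i)
  have hA0 : 0 ≤ ∑ a, cf v (q a) := Finset.sum_nonneg fun a _ => cf_nonneg v (q a)
  have hA1 : 1 ≤ A := by rw [hA]; linarith
  -- the main inequality
  have key : ∀ x : Fin N → K, sz v x ^ (M + d) ≤
      A * sz v x ^ M * (sz v (fun i => eval x (f i)) + R * sz v x ^ (d - 1)) := by
    intro x
    set S := sz v x with hS
    set T := sz v (fun i => eval x (f i)) with hT
    have hS1 : 1 ≤ S := one_le_sz v x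
    have hT1 : 1 ≤ T := one_le_sz v _
    have hSM : 1 ≤ S ^ M := one_le_pow₀ hS1
    have hSd : 1 ≤ S ^ (d - 1) := one_le_pow₀ hS1
    have hB : T ≤ T + R * S ^ (d - 1) := by nlinarith
    have hB0 : 1 ≤ T + R * S ^ (d - 1) := by linarith
    have hAS : 1 ≤ A * S ^ M := by nlinarith
    have hk : ∀ k, v (x k) ^ (M + d) ≤ A * S ^ M * (T + R * S ^ (d - 1)) := by
      intro k
      have h1 := congrArg (fun p => v (eval x p)) (hqG k)
      simp only [map_sum, map_mul, map_pow, eval_X] at h1
      rw [← h1]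
      refine le_trans (v.sum_le _ _) ?_
      have h2 : ∀ j, v (eval x (q (k, j)) * eval x (homogeneousComponent d (f j))) ≤
          cf v (q (k, j)) * S ^ M * (T + R * S ^ (d - 1)) := by
        intro j
        rw [map_mul]
        have h3 : v (eval x (homogeneousComponent d (f j))) ≤ T + R * S ^ (d - 1) := by
          have h4 : eval x (homogeneousComponent d (f j)) = eval x (f j) - eval x (r j) := by
            rw [hr]
            simp
          rw [h4]
          have h5 : v (eval x (f j) - eval x (r j)) ≤ v (eval x (f j)) + v (eval x (r j)) := by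
            have := v.add_le (eval x (f j)) (-(eval x (r j)))
            rwa [v.map_neg, ← sub_eq_add_neg] at this
          have h6 : v (eval x (f j)) ≤ T := le_sz v (fun i => eval x (f i)) j
          have h7 : v (eval x (r j)) ≤ R * S ^ (d - 1) := by
            refine le_trans (eval_le v (r j) (hrdeg j) x) ?_
            refine mul_le_mul_of_nonneg_right ?_ (by linarith)
            exact Finset.single_le_sum (f := fun i => cf v (r i)) (fun i _ => cf_nonneg v (r i))
              (Finset.mem_univ j)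
          linarith
        have h8 := eval_le v (q (k, j)) (hqdeg (k, j)) x
        exact mul_le_mul h8 h3 (v.nonneg _) (mul_nonneg (cf_nonneg v _) (by linarith))
      refine le_trans (Finset.sum_le_sum fun j _ => h2 j) ?_
      rw [← Finset.sum_mul, ← Finset.sum_mul]
      refine mul_le_mul_of_nonneg_right (mul_le_mul_of_nonneg_right ?_ (by linarith))
        (by linarith)
      have h9 : ∑ j, cf v (q (k, j)) ≤ ∑ a, cf v (q a) := by
        rw [Fintype.sum_prod_type]
        exact Finset.single_le_sum (f := fun k => ∑ j, cf v (q (k, j)))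
          (fun i _ => Finset.sum_nonneg fun j _ => cf_nonneg v _) (Finset.mem_univ k)
      linarith
    rcases sz_cases v x with h | ⟨i, hi⟩
    · rw [← hS] at h
      have h10 : S ^ (M + d) = 1 := by rw [h, one_pow]
      rw [h10]
      nlinarith
    · rw [← hS] at hi
      have := hk i
      rwa [← hi] at this
  refine ⟨max (2 * A) ((2 * A * R) ^ d), le_trans (by linarith) (le_max_left _ _), fun x => ?_⟩
  have h1 := key x
  set S := sz v x with hS
  set T := sz v (fun i => eval x (f i)) with hT
  have hS1 : 1 ≤ S := one_le_sz v x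
  have hT1 : 1 ≤ T := one_le_sz v _
  have hSM : 0 < S ^ M := by positivity
  have h2 : S ^ d ≤ A * (T + R * S ^ (d - 1)) := by
    have : S ^ M * S ^ d ≤ S ^ M * (A * (T + R * S ^ (d - 1))) := by
      calc S ^ M * S ^ d = S ^ (M + d) := (pow_add _ _ _).symm
        _ ≤ A * S ^ M * (T + R * S ^ (d - 1)) := h1
        _ = S ^ M * (A * (T + R * S ^ (d - 1))) := by ring
    exact le_of_mul_le_mul_left this hSM
  have hSd : S ^ d = S * S ^ (d - 1) := by
    rw [← pow_succ', Nat.sub_add_cancel hd]
  have hSd0 : 0 < S ^ (d - 1) := by positivity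
  rcases le_total (2 * A * R) S with h | h
  · have h3 : 2 * A * R * S ^ (d - 1) ≤ S ^ d := by
      rw [hSd]
      exact mul_le_mul_of_nonneg_right h hSd0.le
    have h4 : S ^ d ≤ 2 * A * T := by nlinarith
    exact le_trans h4 (mul_le_mul_of_nonneg_right (le_max_left _ _) (by linarith))
  · have h3 : S ^ d ≤ (2 * A * R) ^ d := pow_le_pow_left₀ (by linarith) h d
    have h4 : 0 ≤ (2 * A * R) ^ d := le_trans (by positivity) h3
    calc S ^ d ≤ (2 * A * R) ^ d * 1 := by rw [mul_one]; exact h3
      _ ≤ max (2 * A) ((2 * A * R) ^ d) * T :=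
        mul_le_mul (le_max_right _ _) hT1 zero_le_one (le_trans h4 (le_max_right _ _))

/-- B1 -/
theorem growth_step (hd : 1 ≤ d) (hf : Regular Kb d f) (v : AbsoluteValue K ℝ) :
    ∃ C : ℝ, ∀ x : Fin N → K, |lh v (fun i => eval x (f i)) - d * lh v x| ≤ C := by
  obtain ⟨C₁, h1, hC₁⟩ := growth_upper (f := f) hf.1 v
  obtain ⟨C₂, h2, hC₂⟩ := growth_lower hd hf v
  refine ⟨Real.log C₁ + Real.log C₂, fun x => ?_⟩
  have l1 : 0 ≤ Real.log C₁ := Real.log_nonneg h1
  have l2 : 0 ≤ Real.log C₂ := Real.log_nonneg h2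
  have hS := one_le_sz v x
  have hT := one_le_sz v (fun i => eval x (f i))
  rw [lh_eq, lh_eq, ← Real.log_pow]
  have hSd : 0 < sz v x ^ d := by positivity
  have a1 : Real.log (sz v (fun i => eval x (f i))) ≤ Real.log C₁ + Real.log (sz v x ^ d) := by
    rw [← Real.log_mul (by positivity) hSd.ne']
    exact Real.log_le_log (by linarith) (hC₁ x)
  have a2 : Real.log (sz v x ^ d) ≤ Real.log C₂ + Real.log (sz v (fun i => eval x (f i))) := by
    rw [← Real.log_mul (by positivity) (by positivity)]
    exact Real.log_le_log hSd (hC₂ x)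
  rw [abs_le]
  constructor <;> linarith

end B

end Pool.Agent.Helper61.RP
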